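import Pool.Agent.Helper8_CR.Stmts

/-!
# PBH: base change along a polynomial map is a ring homomorphism of Grothendieck rings
-/

set_option autoImplicit false
set_option linter.unusedVariables false
set_option linter.unusedSectionVars false

namespace Pool.Agent.Helper8_CR.H78

open MvPolynomial Pool.Agent.Helper6_Mono Pool.Agent.Helper6_Mono.RingPart Pool.Agent.Helper8_CR

variable {k : Type} [Field k] {σ τ : Type}

/-! ### isomorphisms -/

section iso

variable {f : MvPolynomial σ k}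

/-- the converse of `iso_of_OIso` -/
theorem OIso_of_iso {V W : GSch f} (h : V.Iso W) : OIso (ov V) (ov W) := by
  obtain ⟨B, hn, he, ho⟩ := h
  refine OIso.ofBij (fun S _ _ x => ptEquiv W S (B.map S ((ptEquiv V S).symm x))) ?_ ?_ ?_
  · intro S S' _ _ _ _ φ c x
    let x₀ : V.Pt S := (ptEquiv V S).symm x
    let x₁ : V.Pt S' := (ptEquiv V S').symm ((ov V).F.tw φ 1 x)
    let x₂ : V.Pt S' := (ptEquiv V S').symm ((ov V).F.tw φ c x)
    have h1 : GSch.Pt.Maps φ x₀ x₁ := fun i => by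
      show chr 1 (V.wt i) * φ (x.1 i) = φ (x.1 i)
      rw [chr_one, one_mul]
    have h2 : GSch.Pt.Acts c x₁ x₂ := fun i => by
      show chr c (V.wt i) * φ (x.1 i) = chr c (V.wt i) * (chr 1 (V.wt i) * φ (x.1 i))
      rw [chr_one, one_mul]
    have h3 := hn S S' φ x₀ x₁ h1
    have h4 := he S' c x₁ x₂ h2
    apply Subtype.ext
    funext i
    show (B.map S' x₂).crd i = chr c (W.wt i) * φ ((B.map S x₀).crd i)
    rw [← h3 i]
    exact h4 i
  · intro S _ _
    exact (ptEquiv W S).bijective.comp ((B.bij S).comp (ptEquiv V S).symm.bijective)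
  · intro S _ _ x b
    exact ho S ((ptEquiv V S).symm x) b

theorem FT_ov (V : GSch f) : FT (ov V).F :=
  ⟨V.Idx, V.fin, V.wt, V.eqs, V.eqs_hom, ⟨GEquiv.refl _⟩⟩

theorem FT_fibP {X Y : Ov k σ} (hX : FT X.F) (hY : FT Y.F) : FT (fibP X Y).F :=
  FT.closed (hX.prod hY) (P := fun S _ _ p => ∀ b, (X.pt b).fn p.1 = (Y.pt b).fn p.2)
    (fun φ c p hp b => by
      show (X.pt b).fn (X.F.tw φ c p.1) = (Y.pt b).fn (Y.F.tw φ c p.2)
      rw [(X.pt b).fn_tw, (Y.pt b).fn_tw, hp b]) (A := σ) (w := fun _ => 0)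
    (fun b => ((X.pt b).fst Y.F).sub ((Y.pt b).snd X.F))
    (fun S _ _ x => forall_congr' fun b => (sub_eq_zero (a := (X.pt b).fn x.1)).symm)

/-- the fibre product of affine schemes -/
theorem ov_prod (V W : GSch f) : OIso (ov (V.prod W)) (fibP (ov V) (ov W)) := by
  have hl : ∀ (S : Type) [CommRing S] [Algebra k S] (y : V.Idx ⊕ W.Idx → S)
      (e : MvPolynomial V.Idx k), aeval y (rename Sum.inl e : MvPolynomial (V.Idx ⊕ W.Idx) k) =
        aeval (fun i => y (Sum.inl i)) e := fun S _ _ y e => by rw [aeval_rename]; rfl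
  have hr : ∀ (S : Type) [CommRing S] [Algebra k S] (y : V.Idx ⊕ W.Idx → S)
      (e : MvPolynomial W.Idx k), aeval y (rename Sum.inr e : MvPolynomial (V.Idx ⊕ W.Idx) k) =
        aeval (fun i => y (Sum.inr i)) e := fun S _ _ y e => by rw [aeval_rename]; rfl
  refine OIso.mk' (fun S _ _ x => ⟨(⟨fun i => x.1 (Sum.inl i), ?_⟩, ⟨fun i => x.1 (Sum.inr i), ?_⟩),
      ?_⟩) (fun S _ _ y => ⟨Sum.elim y.1.1.1 y.1.2.1, ?_⟩) (fun S _ _ x => ?_) (fun S _ _ y => ?_)
    (fun φ c x => ?_) (fun S _ _ x b => ?_)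
  · intro e he
    exact (hl S x.1 e).symm.trans (x.2 _ (Or.inl ⟨e, he, rfl⟩))
  · intro e he
    exact (hr S x.1 e).symm.trans (x.2 _ (Or.inr (Or.inl ⟨e, he, rfl⟩)))
  · intro i
    have key : ∀ y : V.Idx ⊕ W.Idx → S, aeval y (rename Sum.inl (V.pt i) -
        rename Sum.inr (W.pt i) : MvPolynomial (V.Idx ⊕ W.Idx) k) = 0 →
        aeval (fun i => y (Sum.inl i)) (V.pt i) = aeval (fun i => y (Sum.inr i)) (W.pt i) := by
      intro y hy
      rw [map_sub, hl, hr] at hy
      exact sub_eq_zero.1 hy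
    exact key x.1 (x.2 _ (Or.inr (Or.inr ⟨i, rfl⟩)))
  · rintro e (⟨e, he, rfl⟩ | ⟨e, he, rfl⟩ | ⟨i, rfl⟩)
    · exact (hl S _ e).trans (y.1.1.2 e he)
    · exact (hr S _ e).trans (y.1.2.2 e he)
    · show aeval _ (rename Sum.inl (V.pt i) - rename Sum.inr (W.pt i) :
        MvPolynomial (V.Idx ⊕ W.Idx) k) = 0
      rw [map_sub, hl, hr]
      exact sub_eq_zero.2 (y.2 i)
  · apply Subtype.ext
    funext i
    cases i <;> rfl
  · rfl
  · rfl
  · exact (hl S x.1 (V.pt b)).symm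

end iso

/-! ### the class of the base -/

theorem cls_base [Finite σ] (f : MvPolynomial σ k) : cls (GSch.base f) = 1 := by
  have h : K0.cl0 (GSch.base f) = 1 :=
    (Ideal.Quotient.eq.2 (Ideal.subset_span KRel.one) :
      Ideal.Quotient.mk (relIdeal f) (MvPolynomial.X (GSch.base f)) =
      Ideal.Quotient.mk (relIdeal f) 1)
  unfold cls
  rw [h, map_one]

/-! ### base change -/

section bc

variable [Finite σ] [Finite τ] {F : MvPolynomial τ k} {f : MvPolynomial σ k}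
  {g : τ → MvPolynomial σ k}

theorem zero_of_zero (hg : bind₁ g F ∈ Ideal.span {f}) {S : Type} [CommRing S] [Algebra k S]
    (z : σ → S) (hz : aeval z f = 0) : aeval (fun i => aeval z (g i)) F = 0 := by
  rw [← aeval_bind₁]
  obtain ⟨q, hq⟩ := Ideal.mem_span_singleton.1 hg
  rw [hq, map_mul, hz, zero_mul]

/-- the part over `{f = 0}` of the base change of `X` only depends on the part of `X` over
`{F = 0}` -/
theorem val_zero (hg : bind₁ g F ∈ Ideal.span {f}) {X : Ov k τ} (hX : FT X.F) :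
    (chi f).χ ((PBK g).app (X.zero (fNF F X))) = (chi f).χ ((PBK g).app X) := by
  obtain ⟨V, hV⟩ := exists_pres (f := f) ((PBK g).app_FT hX)
  show val f _ = val f _
  rw [val_eq hV]
  refine val_eq (OIso.trans ?_ hV)
  refine OIso.mk' (fun S _ _ x => ⟨⟨(x.1.1.1.1, x.1.1.2), x.1.2⟩, x.2⟩)
    (fun S _ _ y => ⟨⟨(⟨y.1.1.1, ?_⟩, y.1.1.2), y.1.2⟩, y.2⟩) (fun S _ _ x => rfl)
    (fun S _ _ y => rfl) (fun φ c x => rfl) (fun S _ _ x b => rfl)
  have h1 : X.base y.1.1.1 = fun i => aeval y.1.1.2 (g i) := by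
    funext i
    exact sub_eq_zero.1 (y.1.2 i)
  show aeval (X.base y.1.1.1) F = 0
  rw [h1]
  exact zero_of_zero hg _ y.2

/-- base change commutes with fibre products -/
theorem app_fibP (g : τ → MvPolynomial σ k) (X Y : Ov k τ) :
    OIso ((PBK g).app (fibP X Y)) (fibP ((PBK g).app X) ((PBK g).app Y)) := by
  refine OIso.mk' (fun S _ _ x => ⟨(⟨(x.1.1.1.1, x.1.2), ?_⟩, ⟨(x.1.1.1.2, x.1.2), ?_⟩), ?_⟩)
    (fun S _ _ y => ⟨(⟨(y.1.1.1.1, y.1.2.1.1), ?_⟩, y.1.1.1.2), ?_⟩) (fun S _ _ x => rfl)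
    (fun S _ _ y => ?_) (fun φ c x => rfl) (fun S _ _ x b => rfl)
  · exact x.2
  · intro a
    have h1 := x.2 a
    have h2 : (X.pt a).fn x.1.1.1.1 = (Y.pt a).fn x.1.1.1.2 := x.1.1.2 a
    show (Y.pt a).fn x.1.1.1.2 - aeval x.1.2 (g a) = 0
    rw [← h2]
    exact h1
  · intro b
    rfl
  · intro b
    have h1 : (X.pt b).fn y.1.1.1.1 - aeval y.1.1.1.2 (g b) = 0 := y.1.1.2 b
    have h2 : (Y.pt b).fn y.1.2.1.1 - aeval y.1.2.1.2 (g b) = 0 := y.1.2.2 b
    have h3 : y.1.1.1.2 = y.1.2.1.2 := funext fun i => y.2 i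
    rw [← h3] at h2
    exact (sub_eq_zero.1 h1).trans (sub_eq_zero.1 h2).symm
  · exact y.1.1.2
  · have h3 : y.1.1.1.2 = y.1.2.1.2 := funext fun i => y.2 i
    apply Subtype.ext
    refine Prod.ext rfl ?_
    apply Subtype.ext
    exact Prod.ext rfl h3

/-- base change of `{F = 0}` is `{f = 0}` -/
theorem val_base (hg : bind₁ g F ∈ Ideal.span {f}) :
    (chi f).χ ((PBK g).app (ov (GSch.base F))) = 1 := by
  rw [← cls_base f]
  refine val_eq ?_
  refine OIso.mk' (fun S _ _ x => ⟨x.1.1.2, ?_⟩)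
    (fun S _ _ y => ⟨⟨(⟨fun i => aeval y.1 (g i), ?_⟩, y.1), ?_⟩, ?_⟩) (fun S _ _ x => ?_)
    (fun S _ _ y => rfl) (fun φ c x => rfl) (fun S _ _ x b => ?_)
  · intro e he
    exact (congrArg (fun e : MvPolynomial σ k => aeval x.1.1.2 e) he).trans x.2
  · intro e he
    exact (congrArg (fun e : MvPolynomial τ k => aeval (fun i => aeval y.1 (g i)) e) he).trans
      (zero_of_zero hg _ (y.2 f rfl))
  · intro a
    show aeval (fun i => aeval y.1 (g i)) (X a : MvPolynomial τ k) - aeval y.1 (g a) = 0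
    rw [aeval_X, sub_self]
  · exact y.2 f rfl
  · apply Subtype.ext
    apply Subtype.ext
    refine Prod.ext ?_ rfl
    apply Subtype.ext
    funext i
    exact ((sub_eq_zero.1 (x.1.2 i)).symm).trans (aeval_X (R := k) (x.1.1.1.1 : τ → S) i)
  · exact aeval_X _ _

variable (F f g) in
/-- the value on generators -/
noncomputable def psi0 (V : GSch F) : MM f := ((chi f).comp (PBK g)).χ (ov V)

theorem psi0_line (hg : bind₁ g F ∈ Ideal.span {f}) (V : GSch F) (c : CharMu) :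
    psi0 F f g (V.line c) = ((LL f : (MM f)ˣ) : MM f) * psi0 F f g V := by
  unfold psi0
  rw [← ((chi f).comp (PBK g)).iso ((FT_ov V).prod (FT.line c)) (ov_line V c)]
  exact ((chi f).comp (PBK g)).lin (FT_ov V) c

theorem psi0_base (hg : bind₁ g F ∈ Ideal.span {f}) : psi0 F f g (GSch.base F) = 1 :=
  val_base hg

variable (F f g) in
/-- the map on polynomials in the generators -/
noncomputable def psi1 : MvPolynomial (GSch F) ℤ →+* MM f :=
  (aeval (psi0 F f g) : MvPolynomial (GSch F) ℤ →ₐ[ℤ] MM f).toRingHom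

theorem psi1_X (V : GSch F) : psi1 F f g (X V) = psi0 F f g V := aeval_X _ _

theorem psi1_rel (h : VmulStmt) (hg : bind₁ g F ∈ Ideal.span {f}) :
    ∀ a ∈ relIdeal F, psi1 F f g a = 0 := by
  have hle : relIdeal F ≤ RingHom.ker (psi1 F f g) := by
    unfold relIdeal
    rw [Ideal.span_le]
    intro r hr
    show psi1 F f g r = 0
    cases hr with
    | iso V W hVW =>
      rw [map_sub, psi1_X, psi1_X, sub_eq_zero]
      exact ((chi f).comp (PBK g)).iso (FT_ov V) (OIso_of_iso hVW)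
    | scissor V p c hp =>
      rw [map_sub, map_sub, psi1_X, psi1_X, psi1_X, sub_sub, sub_eq_zero]
      unfold psi0
      rw [((chi f).comp (PBK g)).scissor (FT_ov V) (pNF V hp),
        ((chi f).comp (PBK g)).iso ((FT_ov V).zero (pNF V hp)) (ov_zero V hp),
        ((chi f).comp (PBK g)).iso ((FT_ov V).unit' (pNF V hp)) (ov_unit V hp)]
    | prod V W =>
      rw [map_sub, map_mul, psi1_X, psi1_X, psi1_X, sub_eq_zero]
      unfold psi0
      rw [((chi f).comp (PBK g)).iso (FT_ov _) (ov_prod V W)]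
      show (chi f).χ ((PBK g).app (fibP (ov V) (ov W))) =
        (chi f).χ ((PBK g).app (ov V)) * (chi f).χ ((PBK g).app (ov W))
      rw [(chi f).iso ((PBK g).app_FT (FT_fibP (FT_ov V) (FT_ov W))) (app_fibP g (ov V) (ov W))]
      exact h k σ f _ _ ((PBK g).app_FT (FT_ov V)) ((PBK g).app_FT (FT_ov W))
    | one =>
      rw [map_sub, map_one, psi1_X, psi0_base hg, sub_self]
    | line V c =>
      rw [map_sub, map_mul, psi1_X, psi1_X, psi1_X, psi0_line hg, psi0_line hg, psi0_base hg,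
        mul_one, sub_self]
  intro a ha
  exact hle ha

end bc

theorem pbh (h : VmulStmt) : PbhStmt := by
  intro k _ σ τ _ _ F f g hg
  let ψ₀ : K0 F →+* MM f := Ideal.Quotient.lift (relIdeal F) (psi1 F f g) (psi1_rel h hg)
  have hψ₀ : ∀ V : GSch F, ψ₀ (K0.cl0 V) = psi0 F f g V := fun V =>
    (Ideal.Quotient.lift_mk _ _ _).trans (psi1_X V)
  have hL : ψ₀ (K0.L0 F) = ((LL f : (MM f)ˣ) : MM f) := by
    unfold K0.L0
    rw [hψ₀, psi0_line hg, psi0_base hg, mul_one]
  have hu : IsUnit (ψ₀ (K0.L0 F)) := by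
    rw [hL]
    exact Units.isUnit _
  let ψ : MM F →+* MM f :=
    (IsLocalization.Away.lift (K0.L0 F) hu : Localization.Away (K0.L0 F) →+* MM f)
  have hψ : ∀ x : K0 F, ψ (toMM F x) = ψ₀ x := fun x =>
    IsLocalization.Away.lift_eq (S := Localization.Away (K0.L0 F)) (K0.L0 F) hu x
  refine ⟨ψ, ?_, ?_⟩
  · rw [← hL, ← hψ]
    rfl
  · intro X hX
    obtain ⟨V, hV⟩ := exists_pres (f := F) hX
    have h1 : (chi F).χ X = toMM F (K0.cl0 V) := val_eq hV
    rw [h1, hψ, hψ₀, ← val_zero hg hX]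
    exact (((chi f).comp (PBK g)).iso (hX.zero (fNF F X)) hV).symm

end Pool.Agent.Helper8_CR.H78
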